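import Pool.Agent.Helper94.GA.Goals

/-!
# Packet CMBMIN: minimal distances for positions with linear part of infinite order
-/

namespace Pool.Agent.Helper58.GA

open Pointwise
open scoped commutatorElement
open Pool.Agent.Helper94.GA
open Pool.Agent.Helper11.Gap

universe u v

theorem CMBMIN : CMBMIN_stmt.{u, v} := by
  intro G _ _ K _ T hT hgen R H1 H2
  classical
  -- a hyperbolic position
  have hhyp : ∃ h x, IsX T x ∧ Hyp' R h x := by
    by_contra hcon
    push Not at hcon
    obtain ⟨n, hn, hvn⟩ := H1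
    let P : Subgroup G :=
      { carrier := {n | n ∈ commutator G ∧ ∃ k : ℕ, 0 < k ∧ R.χ n ^ k = 1}
        one_mem' := ⟨Subgroup.one_mem _, 1, Nat.one_pos, by rw [R.χ_one, one_pow]⟩
        mul_mem' := by
          rintro a b ⟨ha, k, hk, hak⟩ ⟨hb, l, hl, hbl⟩
          refine ⟨Subgroup.mul_mem _ ha hb, k * l, Nat.mul_pos hk hl, ?_⟩
          rw [R.χ_mul a ha b hb, mul_pow, pow_mul, hak, one_pow, one_mul, mul_comm k l, pow_mul,
            hbl, one_pow]
        inv_mem' := by
          rintro a ⟨ha, k, hk, hak⟩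
          exact ⟨Subgroup.inv_mem _ ha, k, hk, by rw [R.χ_inv ha, inv_pow, hak, inv_one]⟩ }
    have hle := commutator_le_of_conj hgen P (by
      intro k x hx
      have h1 := hcon k x hx
      rw [Hyp'] at h1
      push Not at h1
      obtain ⟨j, hj, hj1⟩ := h1
      rw [AffRep.at'_χ] at hj1
      refine ⟨?_, j, hj, hj1⟩
      have := (inferInstance : (commutator G).Normal).conj_mem x hx.mem k⁻¹
      rwa [inv_inv] at this)
    obtain ⟨k, hk, hk1⟩ := (hle hn).2
    exact hvn k hk hk1
  obtain ⟨h₀, x₀, hx₀, hh₀⟩ := hhyp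
  -- somebody moves the center
  have hex : ∃ d : ℕ, ∃ h x y g : G, IsX T x ∧ IsX T y ∧ Hyp' R h x ∧ g ∈ T ^ d ∧
      (R.at' (g * h)).act y ((R.at' h).ctr x) ≠ (R.at' h).ctr x := by
    by_contra hcon
    push Not at hcon
    set o := (R.at' h₀).ctr x₀ with ho
    obtain ⟨n, hn, hmove⟩ := H2 o
    let P : Subgroup G :=
      { carrier := {n | n ∈ commutator G ∧ R.act n o = o}
        one_mem' := ⟨Subgroup.one_mem _, R.act_one o⟩
        mul_mem' := by
          rintro a b ⟨ha, ha'⟩ ⟨hb, hb'⟩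
          exact ⟨Subgroup.mul_mem _ ha hb, R.fix_mul ha hb ha' hb'⟩
        inv_mem' := by
          rintro a ⟨ha, ha'⟩
          exact ⟨Subgroup.inv_mem _ ha, R.fix_inv ha ha'⟩ }
    have hle := commutator_le_of_conj hgen P (by
      intro k y hy
      obtain ⟨m, hm⟩ := hT.exists_mem_pow_of_mem_closure (g := k * h₀⁻¹)
        (by rw [hgen]; exact Subgroup.mem_top _)
      have h1 := hcon m h₀ x₀ y (k * h₀⁻¹) hx₀ hy hh₀ hm
      rw [inv_mul_cancel_right, AffRep.at'_act] at h1
      refine ⟨?_, h1⟩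
      have := (inferInstance : (commutator G).Normal).conj_mem y hy.mem k⁻¹
      rwa [inv_inv] at this)
    exact hmove (hle hn).2
  refine ⟨Nat.find hex, ?_, Nat.find_spec hex⟩
  intro h x y g m hx hy hh hg hm
  by_contra hne
  exact Nat.find_min hex hm ⟨h, x, y, g, hx, hy, hh, hg, hne⟩

end Pool.Agent.Helper58.GA
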